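import Pool.Agent.V11230.SVD3
import Pool.Agent.NPC.Dec

/-!
# r-Dominating Set parameterized by the distance to split graphs

For `r = 2` there is a reduction from Dominating Set parameterized by the size of the solution, so
the problem is W[2]-hard.  For `r ≥ 3` the number of balls of radius `r` around non-isolated vertices
is bounded in terms of the size of the modulator, so that one can try all sets of balls.
-/

set_option autoImplicit false

namespace Pool.Agent.NPC.V11230.SVA

open Pool.Agent.NPC Pool.Agent.V11230.SV Pool.Agent.H622R2 Pool.Agent.V11230.DS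

/-! ### The reduction -/

/-- an instance of Dominating Set -/
abbrev Src : Type := List (List Bool) × ℕ

/-- number of vertices -/
def nS (z : Src) : ℕ := z.1.length

/-- the smaller one of `t` and the number of vertices -/
def tS (z : Src) : ℕ := min z.2 z.1.length

/-- the constructed instance -/
def inst (z : Src) : List (List Bool) × ℕ × List ℕ :=
  (if z.2 ≤ z.1.length then mat (vs3 (nS z) (tS z)) (ad3 (ed z.1)) else [],
    z.2, if z.2 ≤ z.1.length then List.range (tS z) else [])

section
variable {α : Type} [TEnc α] {z : α → Src} {A : α → List (List Bool)} {x y : α → L3}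

theorem upoly_nS (hz : Poly z) : UPoly (fun a => nS (z a)) := UPoly.length (Poly.fst hz)

theorem upoly_tS (hz : Poly z) : UPoly (fun a => tS (z a)) :=
  UPoly.of_le (Poly.min (Poly.snd hz) (Poly.length (Poly.fst hz))) (upoly_nS hz)
    (fun _ => min_le_right _ _)

theorem poly_ed (hA : Poly A) {u v : α → ℕ} (hu : Poly u) (hv : Poly v) :
    Poly (fun a => ed (A a) (u a) (v a)) :=
  Poly.and (Poly.not (Poly.decide_eq hu hv)) (Poly.or
    (Poly.getD (Poly.getD hA hu (Poly.const [])) hv (Poly.const false))
    (Poly.getD (Poly.getD hA hv (Poly.const [])) hu (Poly.const false)))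

theorem q1 (hx : Poly x) : Poly (fun a => (x a).1) := Poly.fst hx
theorem q2 (hx : Poly x) : Poly (fun a => (x a).2.1) := Poly.fst (Poly.snd hx)
theorem q3 (hx : Poly x) : Poly (fun a => (x a).2.2) := Poly.snd (Poly.snd hx)

theorem pe {u : α → ℕ} (hu : Poly u) (m : ℕ) : Poly (fun a => decide (u a = m)) :=
  Poly.decide_eq hu (Poly.const m)

theorem poly_val3 (hz : Poly z) (hx : Poly x) :
    Poly (fun a => val3 (nS (z a)) (tS (z a)) (x a)) := by
  have hn := (upoly_nS hz).toPoly
  have ht := (upoly_tS hz).toPoly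
  exact Poly.or (Poly.or
    (Poly.and (Poly.and (Poly.decide_le (q1 hx) (Poly.const 1)) (Poly.decide_lt (q2 hx) hn))
      (pe (q3 hx) 0))
    (Poly.and (Poly.and (pe (q1 hx) 2) (Poly.decide_lt (q2 hx) hn)) (Poly.decide_lt (q3 hx) ht)))
    (Poly.and (Poly.and (pe (q1 hx) 3) (pe (q2 hx) 0)) (Poly.decide_lt (q3 hx) ht))

theorem poly_ad3 (hA : Poly A) (hx : Poly x) (hy : Poly y) :
    Poly (fun a => ad3 (ed (A a)) (x a) (y a)) :=
  Poly.or (Poly.or (Poly.or (Poly.or
    (Poly.and (Poly.and (pe (q1 hx) 0) (pe (q1 hy) 0)) (Poly.not (Poly.decide_eq (q2 hx) (q2 hy))))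
    (Poly.and (Poly.and (pe (q1 hx) 1) (pe (q1 hy) 0)) (Poly.decide_eq (q2 hx) (q2 hy))))
    (Poly.and (Poly.and (pe (q1 hx) 2) (pe (q1 hy) 0)) (Poly.or (Poly.decide_eq (q2 hx) (q2 hy))
      (poly_ed hA (q2 hx) (q2 hy)))))
    (Poly.and (Poly.and (pe (q1 hx) 4) (pe (q1 hy) 2)) (Poly.decide_eq (q3 hx) (q3 hy))))
    (Poly.and (Poly.and (pe (q1 hx) 4) (pe (q1 hy) 3)) (Poly.decide_eq (q3 hx) (q3 hy)))

end

theorem poly_vs3 : Poly (fun z : Src => vs3 (nS z) (tS z)) := by
  have hid : Poly (fun z : Src => z) := Poly.id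
  have g1 : Poly (fun w : Src × ℕ => w.1) := Poly.fst Poly.id
  have g2 : Poly (fun w : (Src × ℕ) × ℕ => w.1.1) := Poly.fst (Poly.fst Poly.id)
  have l2 : Poly (fun w : (Src × ℕ) × ℕ => ((List.range (tS w.1.1 + 1)).map (fun i =>
      ((w.1.2, w.2, i) : L3))).filter (val3 (nS w.1.1) (tS w.1.1))) := by
    refine Poly.filter (p := fun (w : (Src × ℕ) × ℕ) (y : L3) => val3 (nS w.1.1) (tS w.1.1) y)
      ?_ ?_
    · exact Poly.map (F := fun (w : (Src × ℕ) × ℕ) i => ((w.1.2, w.2, i) : L3))
        (UPoly.add (upoly_tS g2) (UPoly.const 1)).range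
        (Poly.pair (Poly.snd (Poly.fst (Poly.fst Poly.id)))
          (Poly.pair (Poly.snd (Poly.fst Poly.id)) (Poly.snd Poly.id)))
    · exact poly_val3 (z := fun w : ((Src × ℕ) × ℕ) × L3 => w.1.1.1)
        (Poly.fst (Poly.fst (Poly.fst Poly.id))) (Poly.snd Poly.id)
  have l1 : Poly (fun w : Src × ℕ => (List.range (nS w.1 + 1)).flatMap fun u =>
      ((List.range (tS w.1 + 1)).map (fun i =>
      ((w.2, u, i) : L3))).filter (val3 (nS w.1) (tS w.1))) :=
    Poly.flatMap (F := fun (w : Src × ℕ) u => ((List.range (tS w.1 + 1)).map (fun i =>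
      ((w.2, u, i) : L3))).filter (val3 (nS w.1) (tS w.1)))
      (UPoly.add (upoly_nS g1) (UPoly.const 1)).range l2
  have l0 : Poly (fun z : Src => (List.range 4).flatMap fun h =>
      (List.range (nS z + 1)).flatMap fun u => ((List.range (tS z + 1)).map (fun i =>
      ((h, u, i) : L3))).filter (val3 (nS z) (tS z))) :=
    Poly.flatMap (F := fun (z : Src) h => (List.range (nS z + 1)).flatMap fun u =>
      ((List.range (tS z + 1)).map (fun i => ((h, u, i) : L3))).filter (val3 (nS z) (tS z)))
      (UPoly.range (UPoly.const (α := Src) 4)) l1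
  exact Poly.append (Poly.map (F := fun (_ : Src) i => ((4, 0, i) : L3)) (upoly_tS hid).range
    (Poly.pair (Poly.const 4) (Poly.pair (Poly.const 0) (Poly.snd Poly.id)))) l0

theorem poly_inst : Poly inst := by
  have hid : Poly (fun z : Src => z) := Poly.id
  have hc : Poly (fun z : Src => mat (vs3 (nS z) (tS z)) (ad3 (ed z.1))) := by
    refine Poly.map (F := fun (z : Src) a => (vs3 (nS z) (tS z)).map fun b =>
      ad3 (ed z.1) a b) poly_vs3 ?_
    exact Poly.map (F := fun (w : Src × L3) b => ad3 (ed w.1.1) w.2 b)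
      (poly_vs3.comp (Poly.fst Poly.id))
      (poly_ad3 (A := fun w : (Src × L3) × L3 => w.1.1.1) (Poly.fst (Poly.fst (Poly.fst Poly.id)))
        (Poly.snd (Poly.fst Poly.id)) (Poly.snd Poly.id))
  have hd := Poly.decide_le (Poly.snd hid) (Poly.length (Poly.fst hid))
  exact Poly.pair (Poly.ite hd hc (Poly.const _)) (Poly.pair (Poly.snd hid)
    (Poly.ite hd (upoly_tS hid).range (Poly.const _)))

/-- the reduction -/
def red (x : List Bool) : List Bool := bits (inst ((unbits Src x).getD ([], 0)))

theorem polyTime_red : PolyTime red := by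
  refine polyTime_bits (g := fun x => inst ((unbits Src x).getD ([], 0))) ?_
  exact poly_inst.comp ((Poly.optCases (o := fun x => unbits Src x)
    (g := fun _ => (([], 0) : Src)) (h := fun _ I => I) poly_unbits (Poly.const _)
    (Poly.snd Poly.id)).congr fun x => by cases unbits Src x <;> rfl)

theorem red_bits (z : Src) : red (bits z) = bits (inst z) := by
  unfold red
  rw [unbits_bits, Option.getD_some]

/-! ### The algorithm -/

section
variable {α : Type} [TEnc α] {A : α → List (List Bool)} {v w m l : α → ℕ}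

theorem c1 {β γ δ : Type} [TEnc β] [TEnc γ] [TEnc δ] {f : β → γ} (hf : Poly f) :
    Poly (fun z : β × δ => f z.1) := hf.comp (Poly.fst Poly.id)

theorem rng (hA : Poly A) : Poly (fun a => List.range (A a).length) := Poly.range_length hA

theorem poly_nr (r : ℕ) : ∀ {α : Type} [TEnc α] {A : α → List (List Bool)} {v w : α → ℕ},
    Poly A → Poly v → Poly w → Poly (fun a => nr (A a) r (v a) (w a)) := by
  induction r with
  | zero =>
    intro α _ A v w _ hv hw
    exact Poly.decide_eq hv hw
  | succ r ih =>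
    intro α _ A v w hA hv hw
    exact Poly.or (ih hA hv hw) (Poly.any (p := fun a z => nr (A a) r (v a) z && ed (A a) z (w a))
      (rng hA) (Poly.and (ih (c1 hA) (c1 hv) (Poly.snd Poly.id))
        (poly_ed (c1 hA) (Poly.snd Poly.id) (c1 hw))))

theorem poly_iso (hA : Poly A) (hv : Poly v) : Poly (fun a => iso (A a) (v a)) :=
  Poly.not (Poly.any (p := fun a w => ed (A a) (v a) w) (rng hA)
    (poly_ed (c1 hA) (c1 hv) (Poly.snd Poly.id)))

theorem poly_sameB (r : ℕ) (hA : Poly A) (hv : Poly v) (hw : Poly w) :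
    Poly (fun a => sameB (A a) r (v a) (w a)) :=
  Poly.all (p := fun a z => decide (nr (A a) r (v a) z = nr (A a) r (w a) z)) (rng hA)
    (Poly.decide_eq (poly_nr r (c1 hA) (c1 hv) (Poly.snd Poly.id))
      (poly_nr r (c1 hA) (c1 hw) (Poly.snd Poly.id)))

theorem poly_reps (r : ℕ) (hA : Poly A) : Poly (fun a => reps (A a) r) := by
  have h1 : Poly (fun z : (α × ℕ) × ℕ => A z.1.1) := c1 (c1 hA)
  have h2 : Poly (fun z : (α × ℕ) × ℕ => z.1.2) := Poly.snd (Poly.fst Poly.id)
  have h3 : Poly (fun z : (α × ℕ) × ℕ => z.2) := Poly.snd Poly.id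
  exact Poly.filter (p := fun a v => !(iso (A a) v) &&
    (List.range (A a).length).all (fun w => !(decide (w < v)) || iso (A a) w ||
      !(sameB (A a) r w v))) (rng hA)
    (Poly.and (Poly.not (poly_iso (c1 hA) (Poly.snd Poly.id)))
      (Poly.all (p := fun (z : α × ℕ) w => !(decide (w < z.2)) || iso (A z.1) w ||
        !(sameB (A z.1) r w z.2)) (rng (c1 hA))
        (Poly.or (Poly.or (Poly.not (Poly.decide_lt h3 h2)) (poly_iso h1 h3))
          (Poly.not (poly_sameB r h1 h3 h2)))))

theorem poly_subs (r : ℕ) (hA : Poly A) (hm : Poly m) : Poly (fun a => subs (A a) r (m a)) := by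
  have h1 : Poly (fun z : α × ℕ × ℕ => (m z.1).bits.getD z.2.2 false) :=
    Poly.getD (Poly.natBits (hm.comp (Poly.fst Poly.id))) (Poly.snd (Poly.snd Poly.id))
      (Poly.const false)
  exact Poly.map (F := fun _ (p : ℕ × ℕ) => p.1) (Poly.filter
    (p := fun a (p : ℕ × ℕ) => (m a).bits.getD p.2 false) (Poly.zipIdx (poly_reps r hA)) h1)
    (Poly.fst (Poly.snd Poly.id))

theorem poly_works (r : ℕ) (hA : Poly A) (hl : Poly l) (hm : Poly m) :
    Poly (fun a => works (A a) r (l a) (m a)) :=
  Poly.and (Poly.all (p := fun a v => iso (A a) v || (subs (A a) r (m a)).any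
      (fun s => nr (A a) r v s)) (rng hA)
    (Poly.or (poly_iso (c1 hA) (Poly.snd Poly.id)) (Poly.any
      (p := fun (z : α × ℕ) s => nr (A z.1) r z.2 s) (poly_subs r (c1 hA) (c1 hm))
      (poly_nr r (c1 (c1 hA)) (Poly.snd (Poly.fst Poly.id)) (Poly.snd Poly.id)))))
    (Poly.decide_le (Poly.add (Poly.length (poly_subs r hA hm))
      (Poly.length (Poly.filter (p := fun a v => iso (A a) v) (rng hA)
        (poly_iso (c1 hA) (Poly.snd Poly.id))))) hl)

end

/-- the input of the algorithm: matrix, bound, modulator; padding -/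
abbrev Inp : Type := (List (List Bool) × ℕ × List ℕ) × List Unit

/-- the decision -/
def dec' (r : ℕ) (z : Inp) : Bool := acc z.1.1 r z.1.2.1 z.2.length

theorem poly_dec' (r : ℕ) : Poly (dec' r) := by
  have hA : Poly (fun z : Inp => z.1.1) := Poly.fst (Poly.fst Poly.id)
  have hl : Poly (fun z : Inp => z.1.2.1) := Poly.fst (Poly.snd (Poly.fst Poly.id))
  exact Poly.any (p := fun z : Inp => works z.1.1 r z.1.2.1) (Poly.range_length (Poly.snd Poly.id))
    (poly_works r (A := fun w : Inp × ℕ => w.1.1.1) (c1 hA) (c1 hl) (Poly.snd Poly.id))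

/-- the algorithm -/
def alg (r : ℕ) (x : List Bool) : List Bool := [dec' r ((unbits Inp x).getD (([], 0, []), []))]

theorem polyTime_alg (r : ℕ) : PolyTime (alg r) := by
  refine polyTime_of_poly (g := fun x => dec' r ((unbits Inp x).getD (([], 0, []), []))) ?_
  exact (poly_dec' r).comp ((Poly.optCases (o := fun x => unbits Inp x)
    (g := fun _ => ((([], 0, []), []) : Inp)) (h := fun _ I => I) poly_unbits (Poly.const _)
    (Poly.snd Poly.id)).congr fun x => by cases unbits Inp x <;> rfl)

/-- the bound on the padding -/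
def pad (k : ℕ) : ℕ := 2 ^ (3 * (2 ^ k * 2 ^ k))

theorem computable_pad : Computable pad := by
  have hpow : Primrec₂ (fun a b : ℕ => a ^ b) := Primrec₂.unpaired'.1 Nat.Primrec.pow
  have h2 : Primrec (fun k : ℕ => 2 ^ k) := hpow.comp (Primrec.const 2) Primrec.id
  have hm : Primrec (fun k : ℕ => 3 * (2 ^ k * 2 ^ k)) :=
    Primrec.nat_mul.comp (Primrec.const 3) (Primrec.nat_mul.comp h2 h2)
  exact (hpow.comp (Primrec.const 2) hm).to_comp

end Pool.Agent.NPC.V11230.SVA

namespace Pool.Agent.Results.MP_918064_lc.SplitDistanceDichotomy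

open Pool.Agent.NPC Pool.Agent.V11230.SV Pool.Agent.NPC.V11230.SVA Pool.Agent.H622R2
  Pool.Agent.V11230.DS

/-- **r-Dominating Set parameterized by the distance to split graphs is W[2]-hard for `r = 2` and
fixed-parameter tractable for each `r ≥ 3`.**

The first part is a polynomial-time reduction from Dominating Set, with parameter the size `t` of
the solution, to 2-Dominating Set with a split modulator of size at most `t`.  The second part is a
computable function `g` and an algorithm which solves the problem in polynomial time on inputs that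
are padded by at least `g k` symbols, where `k` is the size of the modulator. -/
theorem result :
    (∃ f : List Bool → List Bool, PolyTime f ∧ ∀ (A : List (List Bool)) (t : ℕ),
      ∃ (B : List (List Bool)) (X : List ℕ), f (bits (A, t)) = bits (B, t, X) ∧ X.length ≤ t ∧
        SplitModulator (matGraph B) X ∧ (RDom (matGraph B) 2 t ↔ RDom (matGraph A) 1 t)) ∧
    (∀ r : ℕ, 3 ≤ r → ∃ (g : ℕ → ℕ) (D : List Bool → List Bool), Computable g ∧ PolyTime D ∧
      ∀ (A : List (List Bool)) (l : ℕ) (X : List ℕ) (N : ℕ), SplitModulator (matGraph A) X →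
        g X.length ≤ N →
        (D (bits ((A, l, X), List.replicate N ())) = [true] ↔ RDom (matGraph A) r l)) := by
  refine ⟨⟨red, polyTime_red, fun A t => ?_⟩, fun r hr => ⟨pad, alg r, computable_pad,
    polyTime_alg r, fun A l X N hX hN => ?_⟩⟩
  · by_cases ht : t ≤ A.length
    · refine ⟨mat (vs3 A.length t) (ad3 (ed A)), List.range t, ?_, by simp,
        splitModulator _ _ _, ?_⟩
      · rw [red_bits]
        unfold inst nS tS
        dsimp only
        rw [if_pos ht, if_pos ht, min_eq_left ht]
      · rw [rDom_iso (matIso (vs3 A.length t) (ad3 (ed A)) (nodup_vs3 _ _)), rDom_lab_iff A ht]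
    · refine ⟨[], [], ?_, by simp, ?_, ?_⟩
      · rw [red_bits]
        unfold inst
        dsimp only
        rw [if_neg ht, if_neg ht]
      · exact ⟨∅, fun v => v.elim0, fun v => v.elim0, fun v => v.elim0⟩
      · constructor
        · intro _
          refine ⟨Finset.univ, ?_, fun v => ⟨v, Finset.mem_univ _, Near.refl _ _⟩⟩
          rw [Finset.card_univ, Fintype.card_fin]
          omega
        · intro _
          exact ⟨∅, by simp, fun v => v.elim0⟩
  · unfold alg
    rw [unbits_bits, Option.getD_some]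
    unfold dec'
    rw [List.cons.injEq, and_iff_left rfl, List.length_replicate]
    exact acc_iff hr hX hN

end Pool.Agent.Results.MP_918064_lc.SplitDistanceDichotomy
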